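import Pool.Agent.Lib.MP_283c84_lc.Kurepa

/-!
# A single instance of ITP at `μ` steps up, in the presence of ITP at `μ⁺`

Let `μ` be regular and uncountable (for the question, `μ = κ⁺`).  Assume only the instance
`ITP(μ, μ)` and ITP at `μ⁺`.  Then each thin `P_μ Λ`-list with few branches has an ineffable
branch, for all `Λ` of size at least `μ`; in particular ITP holds at `μ`, unless there is a
`μ`-Kurepa family.
-/

namespace Pool.Agent.Results.MP_283c84_lc.StepUp

open Cardinal Set Pool.Agent.Lib.MP_283c84_lc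

universe u

theorem result : ∀ μ : Cardinal.{u}, μ.IsRegular → ℵ₀ < μ →
    ITP.{u} μ μ → ITPAt.{u} (Order.succ μ) →
    (∀ (Λ : Type u) (d : Set Λ → Set Λ), μ ≤ #Λ → IsList μ d → HasWidth μ μ d →
      FewBranches μ d → ∃ D : Set Λ, IsIneffableBranch μ d D) ∧
    (HasKurepaFamily.{u} μ ∨ ITPAt.{u} μ) := by
  intro μ hμ h0 h1 h2
  refine ⟨fun Λ d hΛ hd hT hF => stepUp hμ h0 h1 h2 hΛ hd hT hF, ?_⟩
  by_cases hK : HasKurepaFamily.{u} μ
  · exact Or.inl hK
  · right
    intro l hl Λ hΛ d hd hT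
    have hΛ' : μ ≤ #Λ := by rw [hΛ]; exact hl
    exact stepUp hμ h0 h1 h2 hΛ' hd hT (few_of_noKurepa hμ h0 hΛ' hK hT)

end Pool.Agent.Results.MP_283c84_lc.StepUp
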