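import Pool.Agent.Lib.MP_283c84_lc.Union

/-!
# ITP for lists close to a union of narrow trees is a theorem of ZFC

Let `μ` be an uncountable regular cardinal and `d` a `P_μ Λ`-list.

(A) If on a club the traces of the values `d x` (`x ∈ S`) lie in the union of fewer than `μ` trees
`T i` with fewer than `ρ i < μ` nodes on each level, then on a club of `x ∈ S` the value `d x` is
the restriction of a branch of some `T i`, and there are fewer than `μ` such branches.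

(B) One tree: a list of width `< ρ`, `ρ < μ`.

(C) Thin lists whose values are in the union of such trees up to fewer than `θ` elements, where
`θ < μ` is regular, have ineffable branches.
-/

namespace Pool.Agent.Results.MP_283c84_lc.UnionsOfNarrow

open Cardinal Set Pool.Agent.Lib.MP_283c84_lc

universe u

theorem result : ∀ μ : Cardinal.{u}, ℵ₀ < μ → μ.IsRegular →
    ∀ (Λ : Type u) (d : Set Λ → Set Λ), IsList μ d →
    -- (A) and (C): `fewer than μ` narrow trees `T i` on a club `C`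
    (∀ (ι : Type u) (ρ : ι → Cardinal.{u}) (C : Set (Set Λ)) (T : ι → Set Λ → Set (Set Λ)),
      #ι < μ → (∀ i, ρ i < μ) → IsClub μ C →
      (∀ i, ∀ y ∈ C, ∀ y' ∈ C, y ⊆ y' → ∀ b ∈ T i y', b ∩ y ∈ T i y) →
      (∀ i, ∀ y ∈ C, #(T i y) < ρ i) →
      -- (A)
      (∀ S : Set (Set Λ), (∀ x ∈ S, x ∈ C → ∀ y ∈ C, y ⊆ x → ∃ i, d x ∩ y ∈ T i y) →
        ∃ E : Set (Set Λ), #E < μ ∧ (∀ D ∈ E, ∃ i, ∀ y ∈ C, D ∩ y ∈ T i y) ∧
          (∃ C' : Set (Set Λ), IsClub μ C' ∧ ∀ x ∈ C', x ∈ S → ∃ D ∈ E, D ∩ x = d x) ∧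
          (IsStat μ S → ∃ D ∈ E, IsStat μ {x | x ∈ S ∧ D ∩ x = d x})) ∧
      -- (C)
      (∀ θ : Cardinal.{u}, θ.IsRegular → θ < μ → HasWidth μ μ d →
        (∀ x ∈ C, ∃ i, ∃ b ∈ T i x, #(symmDiff (d x) b : Set Λ) < θ) →
        ∃ D : Set Λ, IsIneffableBranch μ d D)) ∧
    -- (B) narrow lists
    (∀ ρ : Cardinal.{u}, ρ < μ → HasWidth μ ρ d →
      ∃ E : Set (Set Λ), #E < ρ ∧
        (∃ C' : Set (Set Λ), IsClub μ C' ∧ ∀ x ∈ C', ∃ D ∈ E, D ∩ x = d x) ∧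
        ∃ D ∈ E, IsIneffableBranch μ d D) := by
  intro μ h0 hμ Λ d hd
  refine ⟨?_, ?_⟩
  · intro ι ρ C T hι hρ hC hT hw
    refine ⟨?_, ?_⟩
    · intro S hS
      obtain ⟨C', hC', hC'2⟩ := union_of_narrow hμ h0 hι hρ hC hT hw hd hS
      have hE := card_branches hμ hι hρ hC hw
      refine ⟨⋃ i, Br C (T i), hE, ?_, ⟨C', hC', hC'2⟩, ?_⟩
      · intro D hD
        obtain ⟨i, hi⟩ := mem_iUnion.1 hD
        exact ⟨i, hi⟩
      · exact fun hSs => stat_of_few hμ h0 hE hC' hC'2 hSs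
    · intro θ hθ hθμ hthin hclose
      exact close_to_union hμ hι hρ hC hT hw hθ hθμ hd hthin hclose
  · rintro ρ hρ ⟨C, hC, hw⟩
    have hT : IsSubtree C (Traces μ d) := fun y _ y' _ hyy b hb => traces_restrict hyy hb
    have hS : ∀ x ∈ (univ : Set (Set Λ)), x ∈ C → ∀ y ∈ C, y ⊆ x →
        ∃ _ : PUnit.{u + 1}, d x ∩ y ∈ Traces μ d y :=
      fun x _ hx y _ hyx => ⟨PUnit.unit, x, hC.1 x hx, hyx, rfl⟩
    have hι : #(PUnit.{u + 1}) < μ := by
      rw [mk_punit]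
      exact one_lt_aleph0.trans h0
    obtain ⟨C', hC', hC'2⟩ := union_of_narrow (ι := PUnit.{u + 1}) hμ h0 hι (fun _ => hρ) hC
      (T := fun _ => Traces μ d) (fun _ => hT) (fun _ => hw) hd hS
    have h1 : (⋃ _ : PUnit.{u + 1}, Br C (Traces μ d)) = Br C (Traces μ d) := iUnion_const _
    rw [h1] at hC'2
    have hE : #(Br C (Traces μ d)) < ρ := card_Br hμ hρ hC hw
    refine ⟨Br C (Traces μ d), hE, ⟨C', hC', fun x hx => hC'2 x hx (mem_univ x)⟩, ?_⟩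
    have hun : IsStat μ (univ : Set (Set Λ)) := by
      intro K hK
      obtain ⟨x, hx, _⟩ := hK.2.1 ∅ (empty_lt h0)
      exact ⟨x, hx, mem_univ x⟩
    obtain ⟨D, hD, hDs⟩ := stat_of_few hμ h0 (hE.trans hρ) hC' hC'2 hun
    refine ⟨D, hD, ?_⟩
    intro K hK
    obtain ⟨x, hx, _, hx2⟩ := hDs K hK
    exact ⟨x, hx, hx2⟩

end Pool.Agent.Results.MP_283c84_lc.UnionsOfNarrow
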